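import Pool.Agent.Lib.MP_eee7a8_ag.TB.C22.HartCore

/-!
# TAGBR, module HART1 (helper22)
-/

namespace Pool.Agent.Lib.MP_eee7a8_ag.TB.C22

theorem hart1 : Hart1Statement := by
  intro K _ _ K0 D x c hx hc hD hcD hind f N h1 h2
  obtain ⟨z, hz⟩ : ∃ z, z = c / x := ⟨_, rfl⟩
  rw [← hz] at h1 h2 ⊢
  have hzx : z * x = c := by rw [hz]; field_simp
  have hxS : x ∈ Algebra.adjoin ℂ ((D : Set K) ∪ {x, z}) :=
    Algebra.subset_adjoin (by simp)
  have hzS : z ∈ Algebra.adjoin ℂ ((D : Set K) ∪ {x, z}) :=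
    Algebra.subset_adjoin (by simp)
  refine hart_core (M := ℤ) K0 D (fun m => x ^ m) (fun m m' => zpow_add₀ hx m m')
    (zpow_zero x) c hc hD hcD hind
    (fun m => (-m).toNat) (by simp) (fun m m' => by omega)
    ((D : Set K) ∪ {x, z}) ?_ ?_ ?_ f
    (N : ℤ) (-(N : ℤ)) 0 N ?_ ?_ ?_
  · rintro g (hg | hg)
    · exact ⟨0, g, hg, by simp⟩
    · rcases hg with rfl | hg
      · exact ⟨1, 1, D.one_mem, by simp⟩
      · rw [Set.mem_singleton_iff] at hg
        subst hg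
        refine ⟨-1, 1, D.one_mem, ?_⟩
        rw [hz]
        simp
        field_simp
  · intro i
    obtain ⟨n, hn⟩ : ∃ n : ℕ, n = (-i).toNat := ⟨_, rfl⟩
    rw [← hn]
    obtain ⟨u, hu⟩ : ∃ u : ℕ, (u : ℤ) = n + i := ⟨((n : ℤ) + i).toNat, by omega⟩
    have e : c ^ n * x ^ i = z ^ n * x ^ u := by
      have e1 : (x : K) ^ u = x ^ n * x ^ i := by
        rw [← zpow_natCast x u, hu, zpow_add₀ hx, zpow_natCast]
      rw [e1, ← hzx, mul_pow]; ring
    rw [e]
    exact Subalgebra.mul_mem _ (pow_mem hzS n) (pow_mem hxS u)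
  · exact fun e he => Algebra.subset_adjoin (Or.inl he)
  · simpa using h1
  · have e : c ^ N * x ^ (-(N : ℤ)) * f = z ^ N * f := by
      rw [hz, div_pow, zpow_neg, zpow_natCast]; ring
    rw [e]; exact h2
  · intro m
    omega

end Pool.Agent.Lib.MP_eee7a8_ag.TB.C22
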