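import Pool.Agent.Lib.MP_eee7a8_ag.TB.C22.HartCore

/-!
# TAGBR, module HART2 (helper22)
-/

namespace Pool.Agent.Lib.MP_eee7a8_ag.TB.C22

theorem hart2 : Hart2Statement := by
  intro K _ _ K0 D x y c hx hy hc hD hcD hind f N h1 h2
  obtain ⟨z, hz⟩ : ∃ z, z = c / (x * y) := ⟨_, rfl⟩
  rw [← hz] at h1 h2 ⊢
  have hzxy : z * x * y = c := by rw [hz]; field_simp
  have hxS : x ∈ Algebra.adjoin ℂ ((D : Set K) ∪ {x, y, z}) :=
    Algebra.subset_adjoin (by simp)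
  have hyS : y ∈ Algebra.adjoin ℂ ((D : Set K) ∪ {x, y, z}) :=
    Algebra.subset_adjoin (by simp)
  have hzS : z ∈ Algebra.adjoin ℂ ((D : Set K) ∪ {x, y, z}) :=
    Algebra.subset_adjoin (by simp)
  refine hart_core (M := ℤ × ℤ) K0 D (fun m => x ^ m.1 * y ^ m.2) ?_ ?_ c hc hD hcD hind
    (fun m => (max (-m.1) (-m.2)).toNat) ?_ ?_ ((D : Set K) ∪ {x, y, z}) ?_ ?_ ?_ f
    ((N : ℤ), 0) (0, (N : ℤ)) 0 0 ?_ ?_ ?_
  · rintro ⟨i, j⟩ ⟨i', j'⟩
    simp only [Prod.mk_add_mk]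
    rw [zpow_add₀ hx, zpow_add₀ hy]; ring
  · simp
  · simp
  · rintro ⟨i, j⟩ ⟨i', j'⟩
    simp only [Prod.mk_add_mk]
    omega
  · rintro g (hg | hg)
    · exact ⟨(0, 0), g, hg, by simp⟩
    · rcases hg with rfl | rfl | hg
      · exact ⟨(1, 0), 1, D.one_mem, by simp⟩
      · exact ⟨(0, 1), 1, D.one_mem, by simp⟩
      · rw [Set.mem_singleton_iff] at hg
        subst hg
        refine ⟨(-1, -1), 1, D.one_mem, ?_⟩
        rw [hz]
        simp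
        field_simp
  · rintro ⟨i, j⟩
    obtain ⟨n, hn⟩ : ∃ n : ℕ, n = (max (-i) (-j)).toNat := ⟨_, rfl⟩
    simp only
    rw [← hn]
    obtain ⟨u, hu⟩ : ∃ u : ℕ, (u : ℤ) = n + i := ⟨((n : ℤ) + i).toNat, by omega⟩
    obtain ⟨v, hv⟩ : ∃ v : ℕ, (v : ℤ) = n + j := ⟨((n : ℤ) + j).toNat, by omega⟩
    have e : c ^ n * (x ^ i * y ^ j) = z ^ n * x ^ u * y ^ v := by
      have e1 : (x : K) ^ u = x ^ n * x ^ i := by
        rw [← zpow_natCast x u, hu, zpow_add₀ hx, zpow_natCast]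
      have e2 : (y : K) ^ v = y ^ n * y ^ j := by
        rw [← zpow_natCast y v, hv, zpow_add₀ hy, zpow_natCast]
      rw [e1, e2, ← hzxy, mul_pow, mul_pow]; ring
    rw [e]
    exact Subalgebra.mul_mem _ (Subalgebra.mul_mem _ (pow_mem hzS n) (pow_mem hxS u))
      (pow_mem hyS v)
  · exact fun e he => Algebra.subset_adjoin (Or.inl he)
  · simpa using h1
  · simpa using h2
  · rintro ⟨i, j⟩
    simp only [Prod.mk_add_mk]
    omega

end Pool.Agent.Lib.MP_eee7a8_ag.TB.C22
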