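import Pool.Agent.Lib.MP_eee7a8_ag.TB.Iface3

/-!
# TAGBR, modules HART1 and HART2: the common core (helper22)
-/

set_option linter.unusedSectionVars false

namespace Pool.Agent.Lib.MP_eee7a8_ag.TB.C22

variable {K : Type} [Field K] [Algebra ℂ K] {M : Type} [AddCommGroup M] [DecidableEq M]

/-- evaluation of a finite combination of monomials -/
noncomputable def evF (mon : M → K) (F : M →₀ K) : K := F.sum fun m a => a * mon m

/-- coefficients in `c ^ φ m * D` -/
def Good (D : Subalgebra ℂ K) (c : K) (φ : M → ℕ) (F : M →₀ K) : Prop :=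
  ∀ m, ∃ e ∈ D, F m = c ^ φ m * e

/-- the elements with such a representation -/
def AA (mon : M → K) (D : Subalgebra ℂ K) (c : K) (φ : M → ℕ) (f : K) : Prop :=
  ∃ F : M →₀ K, Good D c φ F ∧ f = evF mon F

theorem evF_add (mon : M → K) (F F' : M →₀ K) :
    evF mon (F + F') = evF mon F + evF mon F' := by
  unfold evF
  exact Finsupp.sum_add_index' (fun _ => by simp) (fun _ _ _ => by ring)

theorem evF_single (mon : M → K) (m : M) (a : K) :
    evF mon (Finsupp.single m a) = a * mon m := by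
  unfold evF
  exact Finsupp.sum_single_index (by simp)

theorem AA.add {mon : M → K} {D : Subalgebra ℂ K} {c : K} {φ : M → ℕ} {f g : K}
    (hf : AA mon D c φ f) (hg : AA mon D c φ g) : AA mon D c φ (f + g) := by
  obtain ⟨F, hF, rfl⟩ := hf
  obtain ⟨F', hF', rfl⟩ := hg
  refine ⟨F + F', fun m => ?_, (evF_add mon F F').symm⟩
  obtain ⟨e, he, h⟩ := hF m
  obtain ⟨e', he', h'⟩ := hF' m
  exact ⟨e + e', D.add_mem he he', by rw [Finsupp.add_apply, h, h']; ring⟩

theorem AA.zero {mon : M → K} {D : Subalgebra ℂ K} {c : K} {φ : M → ℕ} :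
    AA mon D c φ 0 :=
  ⟨0, fun m => ⟨0, D.zero_mem, by simp⟩, by simp [evF]⟩

theorem AA.single {mon : M → K} {D : Subalgebra ℂ K} {c : K} {φ : M → ℕ} (m : M) (e : K)
    (he : e ∈ D) : AA mon D c φ (c ^ φ m * e * mon m) := by
  refine ⟨Finsupp.single m (c ^ φ m * e), fun m' => ?_, (evF_single mon m _).symm⟩
  rw [Finsupp.single_apply]
  split_ifs with h
  · subst h; exact ⟨e, he, rfl⟩
  · exact ⟨0, D.zero_mem, by simp⟩

theorem AA.sum {mon : M → K} {D : Subalgebra ℂ K} {c : K} {φ : M → ℕ} {ι : Type}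
    (s : Finset ι) (g : ι → K) (h : ∀ i ∈ s, AA mon D c φ (g i)) :
    AA mon D c φ (∑ i ∈ s, g i) := by
  classical
  induction s using Finset.induction_on with
  | empty => simpa using AA.zero
  | insert a s ha ih =>
    rw [Finset.sum_insert ha]
    exact (h a (Finset.mem_insert_self a s)).add
      (ih fun i hi => h i (Finset.mem_insert_of_mem hi))

theorem AA.mul {mon : M → K} (hmul : ∀ m m', mon (m + m') = mon m * mon m')
    {D : Subalgebra ℂ K} {c : K} (hcD : c ∈ D) {φ : M → ℕ}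
    (hφ : ∀ m m', φ (m + m') ≤ φ m + φ m') {f g : K}
    (hf : AA mon D c φ f) (hg : AA mon D c φ g) : AA mon D c φ (f * g) := by
  obtain ⟨F, hF, rfl⟩ := hf
  obtain ⟨F', hF', rfl⟩ := hg
  rw [evF, evF, Finsupp.sum, Finsupp.sum, Finset.sum_mul_sum]
  refine AA.sum _ _ fun m _ => AA.sum _ _ fun m' _ => ?_
  obtain ⟨e, he, h⟩ := hF m
  obtain ⟨e', he', h'⟩ := hF' m'
  obtain ⟨t, ht⟩ := Nat.exists_eq_add_of_le (hφ m m')
  have h1 : F m * mon m * (F' m' * mon m') =
      c ^ φ (m + m') * (c ^ t * (e * e')) * mon (m + m') := by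
    rw [h, h', hmul]
    have : c ^ φ m * c ^ φ m' = c ^ φ (m + m') * c ^ t := by
      rw [← pow_add, ← pow_add, ht]
    linear_combination (e * e' * mon m * mon m') * this
  rw [h1]
  exact AA.single _ _ (D.mul_mem (pow_mem hcD t) (D.mul_mem he he'))

theorem hart_core (K0 : IntermediateField ℂ K) (D : Subalgebra ℂ K) (mon : M → K)
    (hmul : ∀ m m', mon (m + m') = mon m * mon m') (hmon0 : mon 0 = 1) (c : K) (hc : c ≠ 0)
    (hD : (D : Set K) ⊆ K0) (hcD : c ∈ D)
    (hind : ∀ (s : Finset M) (k : M → K), (∀ m ∈ s, k m ∈ K0) →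
      ∑ m ∈ s, k m * mon m = 0 → ∀ m ∈ s, k m = 0)
    (φ : M → ℕ) (hφ0 : φ 0 = 0) (hφ : ∀ m m', φ (m + m') ≤ φ m + φ m') (gens : Set K)
    (hgens : ∀ g ∈ gens, ∃ (m : M) (e : K), e ∈ D ∧ g = c ^ φ m * e * mon m)
    (hS1 : ∀ m, c ^ φ m * mon m ∈ Algebra.adjoin ℂ gens) (hDS : D ≤ Algebra.adjoin ℂ gens)
    (f : K) (a b : M) (p q : ℕ) (h1 : c ^ p * mon a * f ∈ Algebra.adjoin ℂ gens)
    (h2 : c ^ q * mon b * f ∈ Algebra.adjoin ℂ gens)
    (hab : ∀ m, p + φ m ≤ φ (m + a) ∨ q + φ m ≤ φ (m + b)) :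
    f ∈ Algebra.adjoin ℂ gens := by
  have hSA : ∀ g ∈ Algebra.adjoin ℂ gens, AA mon D c φ g := by
    intro g hg
    induction hg using Algebra.adjoin_induction with
    | mem x hx =>
      obtain ⟨m, e, he, rfl⟩ := hgens x hx
      exact AA.single m e he
    | algebraMap r =>
      have := AA.single (mon := mon) (D := D) (c := c) (φ := φ) 0 (algebraMap ℂ K r)
        (D.algebraMap_mem r)
      rwa [hφ0, hmon0, pow_zero, one_mul, mul_one] at this
    | add x y _ _ hx hy => exact hx.add hy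
    | mul x y _ _ hx hy => exact hx.mul hmul hcD hφ hy
  have hshift : ∀ (n : ℕ) (a : M), c ^ n * mon a * f ∈ Algebra.adjoin ℂ gens →
      ∃ F : M →₀ K, (∀ m, ∃ e ∈ D, F m = c ^ φ (m + a) * e) ∧ c ^ n * f = evF mon F := by
    intro n a h
    obtain ⟨F, hF, hFe⟩ := hSA _ h
    refine ⟨Finsupp.equivMapDomain (Equiv.subRight a) F, fun m => ?_, ?_⟩
    · rw [Finsupp.equivMapDomain_apply]
      have : (Equiv.subRight a).symm m = m + a := rfl
      rw [this]
      exact hF (m + a)
    · have hma : mon a * mon (-a) = 1 := by rw [← hmul, add_neg_cancel, hmon0]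
      have h3 : evF mon (Finsupp.equivMapDomain (Equiv.subRight a) F) = evF mon F * mon (-a) := by
        rw [evF, evF, Finsupp.sum_equivMapDomain, Finsupp.sum, Finsupp.sum, Finset.sum_mul]
        refine Finset.sum_congr rfl fun m _ => ?_
        have : (Equiv.subRight a) m = m + -a := sub_eq_add_neg m a
        rw [this, hmul]; ring
      rw [h3, ← hFe]
      linear_combination (-(c ^ n * f)) * hma
  obtain ⟨F, hF, hFe⟩ := hshift p a h1
  obtain ⟨F', hF', hFe'⟩ := hshift q b h2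
  have hK0 : ∀ e ∈ D, e ∈ K0 := fun e he => hD he
  have hcmp : ∀ m, c ^ q * F m = c ^ p * F' m := by
    have h3 := hind (F.support ∪ F'.support) (fun m => c ^ q * F m - c ^ p * F' m) ?_ ?_
    · intro m
      by_cases hm : m ∈ F.support ∪ F'.support
      · exact sub_eq_zero.1 (h3 m hm)
      · rw [Finset.mem_union, not_or, Finsupp.mem_support_iff, Finsupp.mem_support_iff,
          not_not, not_not] at hm
        rw [hm.1, hm.2, mul_zero, mul_zero]
    · intro m _
      obtain ⟨e, he, h⟩ := hF m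
      obtain ⟨e', he', h'⟩ := hF' m
      rw [h, h']
      exact K0.sub_mem (K0.mul_mem (pow_mem (hK0 c hcD) q)
        (K0.mul_mem (pow_mem (hK0 c hcD) _) (hK0 e he)))
        (K0.mul_mem (pow_mem (hK0 c hcD) p)
        (K0.mul_mem (pow_mem (hK0 c hcD) _) (hK0 e' he')))
    · have e1 : evF mon F = ∑ m ∈ F.support ∪ F'.support, F m * mon m :=
        Finset.sum_subset Finset.subset_union_left fun m _ hm => by
          rw [Finsupp.notMem_support_iff.1 hm]; exact zero_mul _
      have e2 : evF mon F' = ∑ m ∈ F.support ∪ F'.support, F' m * mon m :=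
        Finset.sum_subset Finset.subset_union_right fun m _ hm => by
          rw [Finsupp.notMem_support_iff.1 hm]; exact zero_mul _
      have e3 : ∑ m ∈ F.support ∪ F'.support, (c ^ q * F m - c ^ p * F' m) * mon m =
          c ^ q * evF mon F - c ^ p * evF mon F' := by
        rw [e1, e2, Finset.mul_sum, Finset.mul_sum, ← Finset.sum_sub_distrib]
        exact Finset.sum_congr rfl fun m _ => by ring
      rw [e3, ← hFe, ← hFe']
      ring
  have hf : f = ∑ m ∈ F.support, (c ^ p)⁻¹ * F m * mon m := by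
    have hcp : c ^ p ≠ 0 := pow_ne_zero _ hc
    have : f = (c ^ p)⁻¹ * evF mon F := by
      rw [← hFe, ← mul_assoc, inv_mul_cancel₀ hcp, one_mul]
    rw [this, evF, Finsupp.sum, Finset.mul_sum]
    exact Finset.sum_congr rfl fun m _ => by ring
  rw [hf]
  refine Subalgebra.sum_mem _ fun m _ => ?_
  have hkey : ∃ e ∈ D, (c ^ p)⁻¹ * F m = c ^ φ m * e := by
    have hcp : c ^ p ≠ 0 := pow_ne_zero _ hc
    have hcq : c ^ q ≠ 0 := pow_ne_zero _ hc
    rcases hab m with h | h
    · obtain ⟨e, he, h4⟩ := hF m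
      obtain ⟨t, ht⟩ := Nat.exists_eq_add_of_le h
      refine ⟨c ^ t * e, D.mul_mem (pow_mem hcD t) he, ?_⟩
      rw [h4, ht, pow_add, pow_add]
      field_simp
    · obtain ⟨e, he, h4⟩ := hF' m
      obtain ⟨t, ht⟩ := Nat.exists_eq_add_of_le h
      refine ⟨c ^ t * e, D.mul_mem (pow_mem hcD t) he, ?_⟩
      have h5 := hcmp m
      rw [h4, ht, pow_add, pow_add] at h5
      have h6 : F m = c ^ p * (c ^ φ m * (c ^ t * e)) := by
        apply mul_left_cancel₀ hcq
        rw [h5]; ring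
      rw [h6, ← mul_assoc, inv_mul_cancel₀ hcp, one_mul]
  obtain ⟨e, he, h7⟩ := hkey
  rw [h7]
  have : c ^ φ m * e * mon m = e * (c ^ φ m * mon m) := by ring
  rw [this]
  exact Subalgebra.mul_mem _ (hDS he) (hS1 m)

end Pool.Agent.Lib.MP_eee7a8_ag.TB.C22
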